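import Pool.Agent.helper84.ZD.SpecA

/-!
# Project zd, part A: module BES (Bessel inequality)
-/

set_option autoImplicit false

open Complex MeasureTheory

namespace Pool.Agent.ZD

open Pool.Agent.helper84.DM Pool.Agent.helper78.ED Pool.Agent.DH

theorem BES_ee_cont {f : ℝ → ℝ} (hf : Continuous f) : Continuous (fun x => ee (f x)) := by
  unfold ee
  fun_prop

theorem BES_ee_conj_mul (x y : ℝ) : (starRingEnd ℂ) (ee x) * ee y = ee (y - x) := by
  unfold ee
  rw [← Complex.exp_conj, ← Complex.exp_add]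
  congr 1
  simp only [map_mul, Complex.conj_ofReal, Complex.conj_I]
  push_cast
  ring

theorem BES_ee_int (k : ℤ) (hk : k ≠ 0) : ∫ y in (0 : ℝ)..150, ee ((k : ℝ) * y) = 0 := by
  have hc : ((2 * Real.pi * (k : ℝ) : ℝ) : ℂ) * I ≠ 0 := by
    apply mul_ne_zero _ Complex.I_ne_zero
    rw [Complex.ofReal_ne_zero]
    have : (k : ℝ) ≠ 0 := by exact_mod_cast hk
    positivity
  have h1 : ∀ y : ℝ, ee ((k : ℝ) * y) =
      Complex.exp ((((2 * Real.pi * (k : ℝ) : ℝ) : ℂ) * I) * (y : ℂ)) := by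
    intro y
    unfold ee
    congr 1
    push_cast
    ring
  simp_rw [h1]
  rw [integral_exp_mul_complex hc]
  have h2 : Complex.exp ((((2 * Real.pi * (k : ℝ) : ℝ) : ℂ) * I) * ((150 : ℝ) : ℂ)) = 1 := by
    rw [Complex.exp_eq_one_iff]
    refine ⟨150 * k, ?_⟩
    push_cast
    ring
  rw [h2]
  simp

theorem BES_sq_int (S : Finset ℤ) (c : ℤ → ℂ) :
    ∫ y in (0 : ℝ)..150, ‖∑ n ∈ S, (starRingEnd ℂ) (c n) * ee ((n : ℝ) * y)‖ ^ 2
      = 150 * ∑ n ∈ S, ‖c n‖ ^ 2 := by
  have key : ∀ y : ℝ, ((‖∑ n ∈ S, (starRingEnd ℂ) (c n) * ee ((n : ℝ) * y)‖ ^ 2 : ℝ) : ℂ) =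
      ∑ m ∈ S, ∑ n ∈ S, (c m * (starRingEnd ℂ) (c n)) * ee (((n - m : ℤ) : ℝ) * y) := by
    intro y
    have h := Complex.conj_mul' (∑ n ∈ S, (starRingEnd ℂ) (c n) * ee ((n : ℝ) * y))
    rw [Complex.ofReal_pow, ← h, map_sum, Finset.sum_mul_sum]
    refine Finset.sum_congr rfl fun m _ => Finset.sum_congr rfl fun n _ => ?_
    rw [map_mul, Complex.conj_conj]
    have h2 : ee (((n - m : ℤ) : ℝ) * y) =
        (starRingEnd ℂ) (ee ((m : ℝ) * y)) * ee ((n : ℝ) * y) := by
      rw [BES_ee_conj_mul]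
      congr 1
      push_cast
      ring
    rw [h2]
    ring
  have h0 : ((∫ y in (0 : ℝ)..150, ‖∑ n ∈ S, (starRingEnd ℂ) (c n) * ee ((n : ℝ) * y)‖ ^ 2 : ℝ) : ℂ)
      = ((150 * ∑ n ∈ S, ‖c n‖ ^ 2 : ℝ) : ℂ) := by
    rw [← intervalIntegral.integral_ofReal]
    simp_rw [key]
    have hi : ∀ k : ℤ, ∀ z : ℂ, IntervalIntegrable (fun y : ℝ => z * ee ((k : ℝ) * y)) volume 0 150 := by
      intro k z
      apply Continuous.intervalIntegrable
      exact continuous_const.mul (BES_ee_cont (by fun_prop))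
    rw [intervalIntegral.integral_finsetSum (fun m _ => ?_)]
    · have h3 : ∀ m ∈ S, (∫ y in (0 : ℝ)..150, ∑ n ∈ S,
          (c m * (starRingEnd ℂ) (c n)) * ee (((n - m : ℤ) : ℝ) * y)) = 150 * ((‖c m‖ ^ 2 : ℝ) : ℂ) := by
        intro m hm
        rw [intervalIntegral.integral_finsetSum (fun n _ => hi _ _)]
        rw [Finset.sum_eq_single m]
        · rw [intervalIntegral.integral_const_mul]
          have h4 : ∀ y : ℝ, ee (((m - m : ℤ) : ℝ) * y) = 1 := by
            intro y
            unfold ee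
            simp
          simp_rw [h4]
          rw [intervalIntegral.integral_const, Complex.mul_conj']
          simp
          ring
        · intro n _ hnm
          rw [intervalIntegral.integral_const_mul, BES_ee_int _ (sub_ne_zero.mpr hnm), mul_zero]
        · intro h
          exact absurd hm h
      rw [Finset.sum_congr rfl h3]
      push_cast
      rw [Finset.mul_sum]
    · exact Continuous.intervalIntegrable (continuous_finsetSum _ fun n _ =>
        continuous_const.mul (BES_ee_cont (by fun_prop))) _ _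
  exact_mod_cast h0

/-- **BES**. -/
theorem BES : BES_stmt := by
  intro f S hf
  set c : ℤ → ℂ := fun n => cf f n with hc
  set Q : ℝ := ∑ n ∈ S, ‖cf f n‖ ^ 2 with hQ
  set P : ℝ → ℂ := fun y => ∑ n ∈ S, (starRingEnd ℂ) (c n) * ee ((n : ℝ) * y) with hP
  have hPc : Continuous P :=
    continuous_finsetSum _ fun n _ => continuous_const.mul (BES_ee_cont (by fun_prop))
  have hPe : Continuous (fun a : ℝ => P (Real.exp a)) := hPc.comp Real.continuous_exp
  have h1 : ((Q : ℝ) : ℂ) = ∫ a in (-5 : ℝ)..5, ((f a : ℝ) : ℂ) * P (Real.exp a) := by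
    have h2 : ∀ a : ℝ, ((f a : ℝ) : ℂ) * P (Real.exp a) =
        ∑ n ∈ S, (starRingEnd ℂ) (c n) * (((f a : ℝ) : ℂ) * ee ((n : ℝ) * Real.exp a)) := by
      intro a
      simp only [hP]
      rw [Finset.mul_sum]
      exact Finset.sum_congr rfl fun n _ => by ring
    simp_rw [h2]
    rw [intervalIntegral.integral_finsetSum]
    · rw [hQ]
      push_cast
      refine Finset.sum_congr rfl fun n _ => ?_
      rw [intervalIntegral.integral_const_mul]
      have : (∫ a in (-5 : ℝ)..5, ((f a : ℝ) : ℂ) * ee ((n : ℝ) * Real.exp a)) = cf f n := rfl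
      rw [this, Complex.conj_mul']
    · intro n _
      apply Continuous.intervalIntegrable
      exact continuous_const.mul ((Complex.continuous_ofReal.comp hf).mul
        (BES_ee_cont (continuous_const.mul Real.continuous_exp)))
  have h2 : Q ≤ ∫ a in (-5 : ℝ)..5, |f a| * ‖P (Real.exp a)‖ := by
    calc Q ≤ ‖((Q : ℝ) : ℂ)‖ := by
          rw [Complex.norm_real]
          exact le_abs_self Q
      _ = ‖∫ a in (-5 : ℝ)..5, ((f a : ℝ) : ℂ) * P (Real.exp a)‖ := by rw [h1]
      _ ≤ ∫ a in (-5 : ℝ)..5, ‖((f a : ℝ) : ℂ) * P (Real.exp a)‖ :=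
          intervalIntegral.norm_integral_le_integral_norm (by norm_num)
      _ = _ := by
          apply intervalIntegral.integral_congr
          intro a _
          simp only [norm_mul, Complex.norm_real, Real.norm_eq_abs]
  have h3 : ∫ a in (-5 : ℝ)..5, ‖P (Real.exp a)‖ ^ 2 ≤ 150 * Real.exp 5 * Q := by
    have hs : ∫ a in (-5 : ℝ)..5, ‖P (Real.exp a)‖ ^ 2 * Real.exp a =
        ∫ y in (Real.exp (-5))..(Real.exp 5), ‖P y‖ ^ 2 := by
      have := intervalIntegral.integral_comp_mul_deriv (a := (-5 : ℝ)) (b := 5)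
        (f := Real.exp) (f' := Real.exp) (g := fun y => ‖P y‖ ^ 2)
        (fun x _ => Real.hasDerivAt_exp x) Real.continuous_exp.continuousOn
        (hPc.norm.pow 2)
      simpa [Function.comp] using this
    have he5 : Real.exp 5 ≤ 150 := by
      have h5 : Real.exp 5 = Real.exp 1 ^ 5 := by
        rw [← Real.exp_nat_mul]
        norm_num
      rw [h5]
      have h6 : Real.exp 1 < 2.7182818286 := Real.exp_one_lt_d9
      calc Real.exp 1 ^ 5 ≤ (2.7182818286 : ℝ) ^ 5 := pow_le_pow_left₀ (Real.exp_pos 1).le h6.le 5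
        _ ≤ 150 := by norm_num
    calc ∫ a in (-5 : ℝ)..5, ‖P (Real.exp a)‖ ^ 2
        ≤ ∫ a in (-5 : ℝ)..5, Real.exp 5 * (‖P (Real.exp a)‖ ^ 2 * Real.exp a) := by
          apply intervalIntegral.integral_mono_on (by norm_num)
          · exact (hPe.norm.pow 2).intervalIntegrable _ _
          · exact (continuous_const.mul ((hPe.norm.pow 2).mul Real.continuous_exp)).intervalIntegrable _ _
          · intro a ha
            have h7 : 1 ≤ Real.exp 5 * Real.exp a := by
              rw [← Real.exp_add]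
              exact Real.one_le_exp (by linarith [ha.1])
            have h8 : 0 ≤ ‖P (Real.exp a)‖ ^ 2 := by positivity
            nlinarith
      _ = Real.exp 5 * ∫ y in (Real.exp (-5))..(Real.exp 5), ‖P y‖ ^ 2 := by
          rw [intervalIntegral.integral_const_mul, hs]
      _ ≤ Real.exp 5 * ∫ y in (0 : ℝ)..150, ‖P y‖ ^ 2 := by
          apply mul_le_mul_of_nonneg_left _ (Real.exp_pos 5).le
          apply intervalIntegral.integral_mono_interval (Real.exp_pos _).le
            (Real.exp_le_exp.mpr (by norm_num)) he5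
          · exact Filter.Eventually.of_forall fun y => by simp only [Pi.zero_apply]; positivity
          · exact (hPc.norm.pow 2).intervalIntegrable _ _
      _ = 150 * Real.exp 5 * Q := by
          rw [hP, BES_sq_int S c]
          simp only [hc, ← hQ]
          ring
  set K : ℝ := 150 * Real.exp 5 with hK
  have hKpos : 0 < K := by positivity
  have hf2 : ∀ a : ℝ, |f a| * ‖P (Real.exp a)‖ ≤ K / 2 * f a ^ 2 + 1 / (2 * K) * ‖P (Real.exp a)‖ ^ 2 := by
    intro a
    have h4 : 0 ≤ (K * |f a| - ‖P (Real.exp a)‖) ^ 2 := sq_nonneg _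
    have h5 : f a ^ 2 = |f a| ^ 2 := (sq_abs _).symm
    rw [h5]
    have h6 : K / 2 * |f a| ^ 2 + 1 / (2 * K) * ‖P (Real.exp a)‖ ^ 2 - |f a| * ‖P (Real.exp a)‖ =
        1 / (2 * K) * (K * |f a| - ‖P (Real.exp a)‖) ^ 2 := by
      field_simp
      ring
    have h7 : 0 ≤ 1 / (2 * K) * (K * |f a| - ‖P (Real.exp a)‖) ^ 2 := by positivity
    linarith
  have hi1 : IntervalIntegrable (fun a : ℝ => K / 2 * f a ^ 2) volume (-5) 5 :=
    (continuous_const.mul (hf.pow 2)).intervalIntegrable _ _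
  have hi2 : IntervalIntegrable (fun a : ℝ => 1 / (2 * K) * ‖P (Real.exp a)‖ ^ 2) volume (-5) 5 :=
    (continuous_const.mul (hPe.norm.pow 2)).intervalIntegrable _ _
  have h4 : ∫ a in (-5 : ℝ)..5, |f a| * ‖P (Real.exp a)‖ ≤
      K / 2 * (∫ a in (-5 : ℝ)..5, f a ^ 2) + 1 / (2 * K) * (K * Q) := by
    calc ∫ a in (-5 : ℝ)..5, |f a| * ‖P (Real.exp a)‖
        ≤ ∫ a in (-5 : ℝ)..5, (K / 2 * f a ^ 2 + 1 / (2 * K) * ‖P (Real.exp a)‖ ^ 2) := by
          apply intervalIntegral.integral_mono_on (by norm_num)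
          · exact (hf.abs.mul hPe.norm).intervalIntegrable _ _
          · exact hi1.add hi2
          · intro a _
            exact hf2 a
      _ = K / 2 * (∫ a in (-5 : ℝ)..5, f a ^ 2) + 1 / (2 * K) * ∫ a in (-5 : ℝ)..5, ‖P (Real.exp a)‖ ^ 2 := by
          rw [intervalIntegral.integral_add hi1 hi2, intervalIntegral.integral_const_mul,
            intervalIntegral.integral_const_mul]
      _ ≤ _ := by
          have : 0 ≤ 1 / (2 * K) := by positivity
          have := mul_le_mul_of_nonneg_left h3 this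
          linarith
  have h5 : 1 / (2 * K) * (K * Q) = Q / 2 := by
    field_simp
  rw [h5] at h4
  have h6 := h2.trans h4
  linarith

end Pool.Agent.ZD
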