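import Pool.Agent.helper90.ZD.SpecB

/-!
# Project zd, part B: module BR5
-/

set_option autoImplicit false

open Complex MeasureTheory

namespace Pool.Agent.ZD

open Pool.Agent.helper84.DM Pool.Agent.helper78.ED Pool.Agent.DH

/-- **BR5**. -/
theorem BR5 (h1 : BR1_stmt) (h2 : BR4_stmt) : BR5_stmt := by
  intro ε δ hε hδ hδ1
  obtain ⟨C1, T1, hC1, H1⟩ := h1 (ε / 2) δ (by linarith) hδ
  obtain ⟨C4, T4, hC4, H4⟩ := h2 (ε / 2) δ (by linarith) hδ (by linarith)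
  refine ⟨C1 * (1 + C4), max (max T1 T4) 2, by positivity, ?_⟩
  intro T hT W hW N hN hNT
  have hT1 : T1 ≤ T := le_trans (le_trans (le_max_left _ _) (le_max_left _ _)) hT
  have hT4 : T4 ≤ T := le_trans (le_trans (le_max_right _ _) (le_max_left _ _)) hT
  have hT2 : (2 : ℝ) ≤ T := le_trans (le_max_right _ _) hT
  have hT0 : (0 : ℝ) < T := by linarith
  have hT1' : (1 : ℝ) ≤ T := by linarith
  have hNpos : (0 : ℝ) < (N : ℝ) := lt_of_lt_of_le (Real.rpow_pos_of_pos hT0 _) hN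
  have hN1 : 1 ≤ N := by
    have : 0 < N := by exact_mod_cast hNpos
    omega
  set x : ℝ := T ^ (1 + δ) / (N : ℝ) with hx
  have hxpos : 0 < x := by positivity
  set h : ℕ := ⌈x⌉₊ with hh
  have hh1 : 1 ≤ h := Nat.one_le_ceil_iff.mpr hxpos
  have hxh : x ≤ (h : ℝ) := Nat.le_ceil x
  have hhx : (h : ℝ) ≤ x + 1 := (Nat.ceil_lt_add_one hxpos.le).le
  have hx2 : x ≤ T ^ ((1 + δ) / 3) := by
    rw [hx, div_le_iff₀ hNpos]
    calc T ^ (1 + δ) = T ^ ((1 + δ) / 3) * T ^ (2 / 3 * (1 + δ)) := by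
          rw [← Real.rpow_add hT0]
          congr 1
          ring
      _ ≤ T ^ ((1 + δ) / 3) * (N : ℝ) :=
          mul_le_mul_of_nonneg_left hN (Real.rpow_nonneg hT0.le _)
  have hone : (1 : ℝ) ≤ T ^ ((1 + δ) / 3) := Real.one_le_rpow hT1' (by positivity)
  have hh2 : (h : ℝ) ≤ 2 * T ^ ((1 + δ) / 3) := by linarith
  have hT5 : T ≤ T ^ (5 : ℕ) := le_self_pow₀ hT1' (by norm_num)
  have hhT5 : (h : ℝ) ≤ T ^ (5 : ℕ) := by
    have h3 : T ^ ((1 + δ) / 3) ≤ T := by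
      calc T ^ ((1 + δ) / 3) ≤ T ^ (1 : ℝ) :=
            Real.rpow_le_rpow_of_exponent_le hT1' (by linarith)
        _ = T := Real.rpow_one T
    have h4 : 2 * T ≤ T ^ (5 : ℕ) := by
      have h5 : T ^ 5 = T ^ 4 * T := by ring
      rw [h5]
      apply mul_le_mul_of_nonneg_right _ hT0.le
      calc (2 : ℝ) ≤ T := hT2
        _ ≤ T ^ 4 := le_self_pow₀ hT1' (by norm_num)
    linarith
  have hNh : T ^ (1 + δ) ≤ (N : ℝ) * (h : ℝ) := by
    have : T ^ (1 + δ) = (N : ℝ) * x := by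
      rw [hx]
      field_simp
    rw [this]
    exact mul_le_mul_of_nonneg_left hxh hNpos.le
  have K1 := H1 T hT1 W hW N h hN1 hh1 (hNT.trans hT5) hhT5 hNh
  have K4 := H4 T hT4 W hW h hh1 hh2
  have hhpos : (0 : ℝ) < (h : ℝ) := by
    have : 0 < h := by omega
    exact_mod_cast this
  have hS0 : 0 ≤ S0 δ T W := by
    unfold S0
    positivity
  have hTe : (1 : ℝ) ≤ T ^ (ε / 2) := Real.one_le_rpow hT1' (by linarith)
  have hTee : T ^ ε = T ^ (ε / 2) * T ^ (ε / 2) := by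
    rw [← Real.rpow_add hT0]
    congr 1
    ring
  set t : ℝ := T ^ (ε / 2) with ht
  have ht0 : 0 < t := by linarith
  have K5 : (h : ℝ) * QW W N ≤
      (h : ℝ) * (C1 * t * ((W.card : ℝ) * (N : ℝ) ^ 2 + N * (C4 * t * S0 δ T W))) := by
    calc (h : ℝ) * QW W N
        ≤ C1 * t * ((h : ℝ) * (W.card : ℝ) * (N : ℝ) ^ 2 + N * QW W h) := K1
      _ ≤ C1 * t * ((h : ℝ) * (W.card : ℝ) * (N : ℝ) ^ 2 + N * (C4 * t * h * S0 δ T W)) := by
          apply mul_le_mul_of_nonneg_left _ (by positivity)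
          have := mul_le_mul_of_nonneg_left K4 hNpos.le
          linarith
      _ = _ := by ring
  have K6 := le_of_mul_le_mul_left K5 hhpos
  refine K6.trans ?_
  rw [hTee]
  have e1 : 0 ≤ (W.card : ℝ) * (N : ℝ) ^ 2 := by positivity
  have e2 : 0 ≤ (N : ℝ) * S0 δ T W := by positivity
  have e3 : (W.card : ℝ) * (N : ℝ) ^ 2 + N * (C4 * t * S0 δ T W) ≤
      (1 + C4) * t * ((W.card : ℝ) * (N : ℝ) ^ 2 + N * S0 δ T W) := by
    have e4 : 1 ≤ (1 + C4) * t := by nlinarith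
    have e5 : (W.card : ℝ) * (N : ℝ) ^ 2 ≤ (1 + C4) * t * ((W.card : ℝ) * (N : ℝ) ^ 2) :=
      le_mul_of_one_le_left e1 e4
    have e6 : C4 * t * ((N : ℝ) * S0 δ T W) ≤ (1 + C4) * t * ((N : ℝ) * S0 δ T W) := by
      apply mul_le_mul_of_nonneg_right _ e2
      nlinarith
    have e7 : (N : ℝ) * (C4 * t * S0 δ T W) = C4 * t * ((N : ℝ) * S0 δ T W) := by ring
    rw [e7]
    calc (W.card : ℝ) * (N : ℝ) ^ 2 + C4 * t * ((N : ℝ) * S0 δ T W)
        ≤ (1 + C4) * t * ((W.card : ℝ) * (N : ℝ) ^ 2) + (1 + C4) * t * ((N : ℝ) * S0 δ T W) :=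
          add_le_add e5 e6
      _ = _ := by ring
  calc C1 * t * ((W.card : ℝ) * (N : ℝ) ^ 2 + N * (C4 * t * S0 δ T W))
      ≤ C1 * t * ((1 + C4) * t * ((W.card : ℝ) * (N : ℝ) ^ 2 + N * S0 δ T W)) :=
        mul_le_mul_of_nonneg_left e3 (by positivity)
    _ = _ := by ring

end Pool.Agent.ZD
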